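import Pool.Agent.Lib.MP_e7fbd4_ag.O.B1

/-! # The Bott projection on the square, 2 -/

set_option autoImplicit false
set_option linter.unusedSectionVars false
set_option linter.unusedVariables false

namespace Pool.Agent.Lib.MP_e7fbd4_ag.O

open Pool.Agent.Lib.MP_c052b4_al ComplexConjugate

variable {A B : Type} [Ring A] [Algebra ℂ A] [Ring B] [Algebra ℂ B] {c : Kind} {k l : ℕ}

/-- `P₀ = diag(1, 0)`. -/
def bottP₀ : Idem 2 where
  mat := !![1, 0; 0, 0]
  idem := by
    ext i j
    fin_cases i <;> fin_cases j <;> simp [Matrix.mul_apply, Fin.sum_univ_two]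

theorem Idem.ext' {r : ℕ} {P Q : Idem r} (h : P.mat = Q.mat) : P = Q := by
  cases P; cases Q; cases h; rfl

theorem bottP_bdry {a b : unitInterval} (h : a = 0 ∨ a = 1 ∨ b = 0 ∨ b = 1) :
    bottP a b = bottP₀ := by
  have hr : brho a b = 0 := by
    unfold brho
    rcases h with h | h | h | h <;> simp [h]
  have hd := bott_denom a b
  apply Idem.ext'
  change (bw a b * conj (bw a b) + brho a b * brho a b)⁻¹ •
    !![bw a b * conj (bw a b), bw a b * brho a b;
       brho a b * conj (bw a b), brho a b * brho a b] = !![1, 0; 0, 0]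
  rw [hr, mul_zero, add_zero] at hd
  rw [hr, mul_zero, mul_zero, zero_mul, add_zero]
  ext i j
  fin_cases i <;> fin_cases j
  · change (bw a b * conj (bw a b))⁻¹ * (bw a b * conj (bw a b)) = 1
    exact inv_mul_cancel₀ hd
  · change (bw a b * conj (bw a b))⁻¹ * 0 = 0
    exact mul_zero _
  · change (bw a b * conj (bw a b))⁻¹ * 0 = 0
    exact mul_zero _
  · change (bw a b * conj (bw a b))⁻¹ * 0 = 0
    exact mul_zero _

end Pool.Agent.Lib.MP_e7fbd4_ag.O
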