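import Pool.Agent.Lib.MP_e7fbd4_ag.Mg.G008

/-! # Functions with values in an algebra, 2 -/

set_option autoImplicit false
set_option linter.unusedSectionVars false
set_option linter.unusedVariables false

namespace Pool.Agent.Lib.MP_e7fbd4_ag.O

open Pool.Agent.Lib.MP_c052b4_al

variable {A B : Type} [Ring A] [Algebra ℂ A] [Ring B] [Algebra ℂ B] {c : Kind} {k l : ℕ}

theorem fn_map (f : A →ₗ[ℂ] B) {F : Cube k → A} (hF : F ∈ fn c k A) :
    (fun x => f (F x)) ∈ fn c k B := by
  unfold fn at hF
  induction hF using Submodule.span_induction with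
  | mem F h' =>
    obtain ⟨s, hs, a, rfl⟩ := h'
    refine Submodule.subset_span ⟨s, hs, f a, ?_⟩
    funext x
    rw [map_smul]
  | zero =>
    have h2 : (fun x => f ((0 : Cube k → A) x)) = 0 := by
      funext x
      simp
    rw [h2]
    exact Submodule.zero_mem _
  | add F H _ _ ihF ihH =>
    have h2 : (fun x => f ((F + H) x)) = (fun x => f (F x)) + fun x => f (H x) := by
      funext x
      simp
    rw [h2]
    exact Submodule.add_mem _ ihF ihH
  | smul r F _ ihF =>
    have h2 : (fun x => f ((r • F) x)) = r • fun x => f (F x) := by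
      funext x
      simp
    rw [h2]
    exact Submodule.smul_mem _ r ihF

theorem fn_smul {s : Cube k → ℂ} (hs : s ∈ scal c k) {F : Cube k → A} (hF : F ∈ fn c k A) :
    (fun x => s x • F x) ∈ fn c k A := by
  have h1 : (fun x => s x • F x) = fun x => (s x • (1 : A)) * F x := by
    funext x
    rw [smul_mul_assoc, one_mul]
  rw [h1]
  exact fn_mul (F := fun x => s x • (1 : A)) (Submodule.subset_span ⟨s, hs, 1, rfl⟩) hF

theorem fn_alg_le_top : fn Kind.alg k A ≤ fn Kind.top k A := by
  refine Submodule.span_mono ?_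
  rintro F ⟨f, hf, a, rfl⟩
  exact ⟨f, scal_alg_le_top k hf, a, rfl⟩

theorem fn_sum {ι : Type} (s : Finset ι) {F : ι → Cube k → A} (h : ∀ i ∈ s, F i ∈ fn c k A) :
    (fun x => ∑ i ∈ s, F i x) ∈ fn c k A := by
  have h1 : (fun x => ∑ i ∈ s, F i x) = ∑ i ∈ s, F i := by
    funext x
    rw [Finset.sum_apply]
  rw [h1]
  exact Submodule.sum_mem _ h

end Pool.Agent.Lib.MP_e7fbd4_ag.O
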