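import Pool.Agent.Lib.MP_e7fbd4_ag.Mg.G008

/-! # Entries of elements of the infinite general linear group, 3 -/

set_option autoImplicit false
set_option linter.unusedSectionVars false
set_option linter.unusedVariables false

namespace Pool.Agent.Lib.MP_e7fbd4_ag.O

open Pool.Agent.Lib.MP_c052b4_al

variable {A B : Type} [Ring A] [Ring B]

/-- An invertible matrix of size `k` can be enlarged to any size `l ≥ k` (extension by `1`). -/
theorem exists_enlarge {k l : ℕ} (h : k ≤ l) : ∃ E : (Matrix (Fin k) (Fin k) A)ˣ →*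
    (Matrix (Fin l) (Fin l) A)ˣ, (∀ G, toGL A l (E G) = toGL A k G) ∧
      (∀ G i j, entM (E G).val i j = entM G.val i j) := by
  refine ⟨Omega.tr (stabHom A) k l h, fun G => Omega.toLim_tr (stabHom A) k l h G, fun G i j => ?_⟩
  have h1 : toGL A l (Omega.tr (stabHom A) k l h G) = toGL A k G :=
    Omega.toLim_tr (stabHom A) k l h G
  exact ent_eq_of_toGL h1 i j

end Pool.Agent.Lib.MP_e7fbd4_ag.O
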