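import Pool.Agent.Lib.MP_c052b4_al.KOneMap

/-! # Entries of elements of the infinite general linear group -/

set_option autoImplicit false
set_option linter.unusedSectionVars false
set_option linter.unusedVariables false

namespace Pool.Agent.Lib.MP_e7fbd4_ag.O

open Pool.Agent.Lib.MP_c052b4_al

variable {A B : Type} [Ring A] [Ring B]

theorem exists_toGL (g : GLinf A) : ∃ (k : ℕ) (G : (Matrix (Fin k) (Fin k) A)ˣ), toGL A k G = g :=
  Omega.exists_toLim (stabHom A) g

theorem map_toGL (φ : A →+* B) {k : ℕ} (G : (Matrix (Fin k) (Fin k) A)ˣ) :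
    GLinf.map φ (toGL A k G) = toGL B k (mU φ G) := rfl

theorem GLinf_map_comp {C : Type} [Ring C] (ψ : B →+* C) (φ : A →+* B) (g : GLinf A) :
    GLinf.map ψ (GLinf.map φ g) = GLinf.map (ψ.comp φ) g := by
  obtain ⟨k, G, rfl⟩ := exists_toGL g
  rfl

end Pool.Agent.Lib.MP_e7fbd4_ag.O
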