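import Pool.Agent.Lib.MP_e7fbd4_ag.O.T1

/-! # The Bott projection on the square, 1 -/

set_option autoImplicit false
set_option linter.unusedSectionVars false
set_option linter.unusedVariables false

namespace Pool.Agent.Lib.MP_e7fbd4_ag.O

open Pool.Agent.Lib.MP_c052b4_al ComplexConjugate

variable {A B : Type} [Ring A] [Algebra ℂ A] [Ring B] [Algebra ℂ B] {c : Kind} {k l : ℕ}

/-- `w = (2a - 1) + (2b - 1) i`. -/
noncomputable def bw (a b : unitInterval) : ℂ := ⟨2 * (a : ℝ) - 1, 2 * (b : ℝ) - 1⟩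

/-- `ρ = a (1 - a) b (1 - b)`. -/
def brho (a b : unitInterval) : ℂ :=
  (((a : ℝ) * (1 - (a : ℝ)) * ((b : ℝ) * (1 - (b : ℝ))) : ℝ) : ℂ)

theorem bott_denom (a b : unitInterval) :
    bw a b * conj (bw a b) + brho a b * brho a b ≠ 0 := by
  have h2 : Complex.normSq (bw a b) =
      (2 * (a : ℝ) - 1) * (2 * (a : ℝ) - 1) + (2 * (b : ℝ) - 1) * (2 * (b : ℝ) - 1) := by
    simp [bw, Complex.normSq_apply]
  rw [Complex.mul_conj, brho, ← Complex.ofReal_mul, ← Complex.ofReal_add, Ne,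
    Complex.ofReal_eq_zero, h2]
  intro h
  have e1 := mul_self_nonneg (2 * (a : ℝ) - 1)
  have e2 := mul_self_nonneg (2 * (b : ℝ) - 1)
  have e3 := mul_self_nonneg ((a : ℝ) * (1 - (a : ℝ)) * ((b : ℝ) * (1 - (b : ℝ))))
  have k1 : (2 * (a : ℝ) - 1) * (2 * (a : ℝ) - 1) = 0 := by linarith
  have k2 : (2 * (b : ℝ) - 1) * (2 * (b : ℝ) - 1) = 0 := by linarith
  have k3 : ((a : ℝ) * (1 - (a : ℝ)) * ((b : ℝ) * (1 - (b : ℝ)))) *
      ((a : ℝ) * (1 - (a : ℝ)) * ((b : ℝ) * (1 - (b : ℝ)))) = 0 := by linarith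
  have ha : (a : ℝ) = 1 / 2 := by
    have := mul_self_eq_zero.mp k1
    linarith
  have hb : (b : ℝ) = 1 / 2 := by
    have := mul_self_eq_zero.mp k2
    linarith
  rw [ha, hb] at k3
  norm_num at k3

private theorem idem_aux (w v r : ℂ) (h : w * v + r * r ≠ 0) :
    ((w * v + r * r)⁻¹ • !![w * v, w * r; r * v, r * r] : Matrix (Fin 2) (Fin 2) ℂ) *
      ((w * v + r * r)⁻¹ • !![w * v, w * r; r * v, r * r]) =
      (w * v + r * r)⁻¹ • !![w * v, w * r; r * v, r * r] := by
  have hM : (!![w * v, w * r; r * v, r * r] : Matrix (Fin 2) (Fin 2) ℂ) *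
      !![w * v, w * r; r * v, r * r] = (w * v + r * r) • !![w * v, w * r; r * v, r * r] := by
    ext i j
    fin_cases i <;> fin_cases j <;> simp [Matrix.mul_apply, Fin.sum_univ_two] <;> ring
  rw [Matrix.smul_mul, Matrix.mul_smul, hM, smul_smul, smul_smul, mul_assoc, inv_mul_cancel₀ h, mul_one]

/-- The orthogonal projection onto the line in `ℂ²` spanned by the vector `(w, ρ)`, with
`w = (2a-1) + (2b-1)i` and `ρ = a(1-a)b(1-b)`. On the boundary of the square this is the constant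
`P₀ = diag(1, 0)`; as a map from the sphere `I²/∂I²` to `ℂP¹` it has degree one (it is
`(a, b) ↦ [w : ρ]`). -/
noncomputable def bottP (a b : unitInterval) : Idem 2 where
  mat := (bw a b * conj (bw a b) + brho a b * brho a b)⁻¹ •
    !![bw a b * conj (bw a b), bw a b * brho a b;
       brho a b * conj (bw a b), brho a b * brho a b]
  idem := idem_aux _ _ _ (bott_denom a b)

end Pool.Agent.Lib.MP_e7fbd4_ag.O
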