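import Pool.Agent.Lib.MP_c052b4_al.KOneMap

/-!
# Functions on cubes, cubes in the infinite general linear group (definitions)

`I^k` is the unit cube `Fin k → [0,1]`.  There are two kinds of functions on it: polynomial
functions (kind `alg`) and continuous functions (kind `top`).  For a complex algebra `A` a function
`I^k → A` is of the given kind if it is a finite sum of functions `x ↦ f(x) a` with `f` a scalar
function of this kind and `a ∈ A`.  A cube in `GL(A)` is a function `g : I^k → GL_r(A)` (for some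
`r`) such that all entries of `g` and of `g⁻¹` are functions of the given kind.
-/

set_option autoImplicit false

namespace Pool.Agent.Lib.MP_e7fbd4_ag.O

open Pool.Agent.Lib.MP_c052b4_al

/-- The cube `I^k = [0,1]^k`. -/
abbrev Cube (k : ℕ) : Type := Fin k → unitInterval

/-- The two kinds of functions: polynomial functions and continuous functions. -/
inductive Kind | alg | top

/-- The coordinates of a point of the cube, as complex numbers. -/
def coord (k : ℕ) (i : Fin k) (x : Cube k) : ℂ := ((x i : ℝ) : ℂ)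

/-- The algebra of polynomial functions `I^k → ℂ`, or of continuous functions `I^k → ℂ`. -/
def scal : Kind → (k : ℕ) → Subalgebra ℂ (Cube k → ℂ)
  | Kind.alg, k => Algebra.adjoin ℂ (Set.range (coord k))
  | Kind.top, k =>
    { carrier := {f | Continuous f}
      mul_mem' := fun hf hg => Continuous.mul hf hg
      add_mem' := fun hf hg => Continuous.add hf hg
      algebraMap_mem' := fun c => (continuous_const : Continuous fun _ : Cube k => c) }

/-- The functions `I^k → A` of the form `x ↦ ∑ f_i(x) a_i`, with scalar functions `f_i` of kind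
`c` and `a_i ∈ A`. -/
def fn (c : Kind) (k : ℕ) (A : Type) [Ring A] [Algebra ℂ A] : Submodule ℂ (Cube k → A) :=
  Submodule.span ℂ {F | ∃ f ∈ scal c k, ∃ a : A, F = fun x => f x • a}

/-- `g : I^k → GL(A)` is a cube of kind `c`: it is given by a function with values in some
`GL_r(A)`, all entries of which, and of its inverse, are functions of kind `c`. -/
def IsCube (c : Kind) {k : ℕ} {A : Type} [Ring A] [Algebra ℂ A] (g : Cube k → GLinf A) : Prop :=
  ∃ (r : ℕ) (G : Cube k → (Matrix (Fin r) (Fin r) A)ˣ),
    (∀ i j, (fun x => (G x).val i j) ∈ fn c k A) ∧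
    (∀ i j, (fun x => (G x)⁻¹.val i j) ∈ fn c k A) ∧
    ∀ x, g x = toGL A r (G x)

/-- A point of `I^k` is on the boundary if one of its coordinates is `0` or `1`. -/
def OnBdry {k : ℕ} (x : Cube k) : Prop := ∃ i, x i = 0 ∨ x i = 1

/-- The homomorphism `GL(A) → GL(M_m(A))` given by the scalar matrices: `g ↦ g ⊕ ⋯ ⊕ g`. -/
noncomputable def dup (m : ℕ) (A : Type) [Ring A] : GLinf A →* GLinf (Matrix (Fin m) (Fin m) A) :=
  GLinf.map (Matrix.scalar (Fin m))

/-- `(g, p)` satisfies the boundary conditions: `g = 1` on the boundary of `I^k`; `p`, a function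
of `(s, x) ∈ I × I^k`, is a path from `1` (at `s = 0`) to `g(x) ⊕ ⋯ ⊕ g(x)` (at `s = 1`), and
`p(s, x) = 1` for `x` on the boundary of `I^k`. -/
structure Bdry (m k : ℕ) {A : Type} [Ring A] (g : Cube k → GLinf A)
    (p : Cube (k + 1) → GLinf (Matrix (Fin m) (Fin m) A)) : Prop where
  g_bdry : ∀ x, OnBdry x → g x = 1
  p_zero : ∀ x : Cube k, p (Fin.cons 0 x) = 1
  p_one : ∀ x : Cube k, p (Fin.cons 1 x) = dup m A (g x)
  p_bdry : ∀ (s : unitInterval) (x : Cube k), OnBdry x → p (Fin.cons s x) = 1

/-- The pairs `(g, p)` which represent the elements of the `(k+2)`-nd homotopy group with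
coefficients `ℤ/m`. -/
structure Pair (c : Kind) (m k : ℕ) (A : Type) [Ring A] [Algebra ℂ A] where
  /-- the cube `g` in `GL(A)` -/
  g : Cube k → GLinf A
  /-- the null-homotopy `p` of `g ⊕ ⋯ ⊕ g` -/
  p : Cube (k + 1) → GLinf (Matrix (Fin m) (Fin m) A)
  hg : IsCube c g
  hp : IsCube c p
  bdry : Bdry m k g p

/-- Two pairs are homotopic if they are the ends of a family `(G(t,·), P(t,·))`, `t ∈ [0,1]`, of
kind `c`, all members of which satisfy the boundary conditions. -/
def Homotopic {c : Kind} {m k : ℕ} {A : Type} [Ring A] [Algebra ℂ A] (z w : Pair c m k A) : Prop :=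
  ∃ (G : Cube (k + 1) → GLinf A) (P : Cube (k + 2) → GLinf (Matrix (Fin m) (Fin m) A)),
    IsCube c G ∧ IsCube c P ∧
    (∀ t : unitInterval, Bdry m k (fun x => G (Fin.cons t x)) (fun y => P (Fin.cons t y))) ∧
    (∀ x, G (Fin.cons 0 x) = z.g x) ∧ (∀ y, P (Fin.cons 0 y) = z.p y) ∧
    (∀ x, G (Fin.cons 1 x) = w.g x) ∧ (∀ y, P (Fin.cons 1 y) = w.p y)

/-- The `(k+2)`-nd homotopy group with coefficients `ℤ/m`: homotopy classes of pairs. For the kind
`alg` this is `K_{k+2}(A; ℤ/m)`, for the kind `top` it is the semi-topological `K`-group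
`K^st_{k+2}(A; ℤ/m)`. -/
def KG (c : Kind) (m k : ℕ) (A : Type) [Ring A] [Algebra ℂ A] : Type :=
  Quot (Homotopic (c := c) (m := m) (k := k) (A := A))

end Pool.Agent.Lib.MP_e7fbd4_ag.O
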