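import Pool.Agent.Lib.MP_c052b4_al.KOneDef

/-! # Entries of elements of the infinite general linear group, 1 -/

set_option autoImplicit false
set_option linter.unusedSectionVars false
set_option linter.unusedVariables false

namespace Pool.Agent.Lib.MP_e7fbd4_ag.O

open Pool.Agent.Lib.MP_c052b4_al

variable {A B : Type} [Ring A] [Ring B]

/-- The entries of `M ⊕ 1 ⊕ 1 ⊕ ⋯`. -/
def entM {k : ℕ} (M : Matrix (Fin k) (Fin k) A) (i j : ℕ) : A :=
  if h : i < k ∧ j < k then M ⟨i, h.1⟩ ⟨j, h.2⟩ else if i = j then 1 else 0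

/-- The entries do not change under stabilization. -/
theorem entM_stab {k : ℕ} (G : (Matrix (Fin k) (Fin k) A)ˣ) (i j : ℕ) :
    entM (stabHom A k G).val i j = entM G.val i j := by
  have hval : ∀ (a b : Fin k ⊕ Fin 1), (stabHom A k G).val (finSumFinEquiv a) (finSumFinEquiv b) =
      Matrix.fromBlocks G.val 0 0 (1 : Matrix (Fin 1) (Fin 1) A) a b := by
    intro a b
    change (Matrix.fromBlocks G.val 0 0 (1 : Matrix (Fin 1) (Fin 1) A)).submatrix
      finSumFinEquiv.symm finSumFinEquiv.symm (finSumFinEquiv a) (finSumFinEquiv b) = _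
    rw [Matrix.submatrix_apply, Equiv.symm_apply_apply, Equiv.symm_apply_apply]
  unfold entM
  by_cases hi : i < k
  · by_cases hj : j < k
    · rw [dif_pos (⟨by omega, by omega⟩ : i < k + 1 ∧ j < k + 1), dif_pos ⟨hi, hj⟩]
      have h1 := hval (Sum.inl ⟨i, hi⟩) (Sum.inl ⟨j, hj⟩)
      rw [Matrix.fromBlocks_apply₁₁] at h1
      exact h1
    · rw [dif_neg (fun h : i < k ∧ j < k => hj h.2), if_neg (by omega : ¬ i = j)]
      by_cases hj2 : j < k + 1
      · obtain rfl : j = k := by omega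
        rw [dif_pos (⟨by omega, by omega⟩ : i < j + 1 ∧ j < j + 1)]
        have h1 := hval (Sum.inl ⟨i, hi⟩) (Sum.inr 0)
        rw [Matrix.fromBlocks_apply₁₂] at h1
        exact h1
      · rw [dif_neg (fun h : i < k + 1 ∧ j < k + 1 => hj2 h.2)]
  · rw [dif_neg (fun h : i < k ∧ j < k => hi h.1)]
    by_cases hi2 : i < k + 1
    · obtain rfl : i = k := by omega
      by_cases hj : j < i
      · rw [dif_pos (⟨by omega, by omega⟩ : i < i + 1 ∧ j < i + 1), if_neg (by omega : ¬ i = j)]
        have h1 := hval (Sum.inr 0) (Sum.inl ⟨j, hj⟩)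
        rw [Matrix.fromBlocks_apply₂₁] at h1
        exact h1
      · by_cases hj2 : j < i + 1
        · obtain rfl : j = i := by omega
          rw [dif_pos (⟨by omega, by omega⟩ : j < j + 1 ∧ j < j + 1), if_pos rfl]
          have h1 := hval (Sum.inr 0) (Sum.inr 0)
          rw [Matrix.fromBlocks_apply₂₂, Matrix.one_apply_eq] at h1
          exact h1
        · rw [dif_neg (fun h : i < i + 1 ∧ j < i + 1 => hj2 h.2)]
    · rw [dif_neg (fun h : i < k + 1 ∧ j < k + 1 => hi2 h.1)]

theorem entM_injective {k : ℕ} {M N : Matrix (Fin k) (Fin k) A}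
    (h : ∀ i j, entM M i j = entM N i j) : M = N := by
  ext i j
  have h1 := h i.1 j.1
  unfold entM at h1
  rw [dif_pos ⟨i.2, j.2⟩, dif_pos ⟨i.2, j.2⟩] at h1
  exact h1

end Pool.Agent.Lib.MP_e7fbd4_ag.O
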