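import Pool.Agent.Lib.MP_e7fbd4_ag.Mg.G004
import Pool.Agent.Lib.MP_e7fbd4_ag.Mg.G014
import Pool.Agent.Lib.MP_e7fbd4_ag.Mg.G012

/-! # Topological K-theory as a functor, and the comparison map -/

set_option autoImplicit false
set_option linter.unusedSectionVars false
set_option linter.unusedVariables false

namespace Pool.Agent.Lib.MP_e7fbd4_ag.O

open Pool.Agent.Lib.MP_c052b4_al

/-- The Bott map as a natural transformation. -/
noncomputable def bottNat (m k : ℕ) : NatHom (KGF Kind.top m k) (KGF Kind.top m (k + 2)) where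
  app A _ _ := bottHom m k A
  nat {A B} _ _ _ _ f x := bott_nat f x

/-- The map from polynomial to continuous pairs as a natural transformation. -/
noncomputable def toStNat (m k : ℕ) : NatHom (KGF Kind.alg m k) (KGF Kind.top m k) where
  app A _ _ := toStHom m k A
  nat {A B} _ _ _ _ f x := toSt_nat f x

/-- The link as a natural isomorphism. -/
theorem exists_linkIso (m : ℕ) [NeZero m] (k : ℕ) : Nonempty (NatIso (hK m k) (KGF Kind.alg m k)) := by
  obtain ⟨e, he⟩ := exists_link m k
  refine ⟨{ app := fun A _ _ => (e A).symm.toAddMonoidHom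
            nat := ?_
            bij := fun A _ _ => (e A).symm.bijective }⟩
  intro A B _ _ _ _ f x
  change (e B).symm ((hK m k).map f x) = kgMap Kind.alg m k f ((e A).symm x)
  rw [AddEquiv.symm_apply_eq, ← he A B f]
  congr 1
  exact ((e A).apply_symm_apply x).symm

/-- Topological K-theory as a functor: the colimit of the semi-topological groups along the Bott
maps. -/
noncomputable def KTF (m k : ℕ) : AlgFunctor := colimT (KGF Kind.top m) (bottNat m) k

/-- The comparison map with values in the colimit functor. -/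
noncomputable def compNat (m k : ℕ) : NatHom (KGF Kind.alg m k) (KTF m k) :=
  (toColimT (KGF Kind.top m) (bottNat m) k).comp (toStNat m k)

theorem KTF_tr (m k : ℕ) : TrProp (KTF m k) :=
  colimT_tr (KGF Kind.top m) (bottNat m)
    (fun n => fun C B W _ _ _ _ _ _ w₀ φ x z h => kg_tr Kind.top m n C B W w₀ φ x z h) k

variable {A : Type} [Ring A] [Algebra ℂ A] {m k : ℕ}

/-- The map from the colimit `KTop` to the colimit functor. -/
noncomputable def ktMap (m k : ℕ) (A : Type) [Ring A] [Algebra ℂ A] :
    KTop m k A → (KTF m k).obj A :=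
  Quot.lift
    (fun x => (toColim (KGF Kind.top m) (bottNat m) (k % 2) (k + 2 * x.1)).app A x.2) (by
      rintro x y ⟨j, z, rfl, rfl⟩
      exact (toColim_step (KGF Kind.top m) (bottNat m) (k % 2) (k + 2 * j) (by omega) z).symm)

theorem ktMap_comparison (x : KG Kind.alg m k A) :
    ktMap m k A (comparison m k A x) = (compNat m k).app A x := rfl

theorem ktMap_surjective : Function.Surjective (ktMap m k A) := by
  intro y
  obtain ⟨n, hn, he, x, hx⟩ := exists_toColim (KGF Kind.top m) (bottNat m) (k % 2) (by omega) k y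
  obtain ⟨j, rfl⟩ : ∃ j, n = k + 2 * j := ⟨(n - k) / 2, by omega⟩
  exact ⟨Quot.mk _ ⟨j, x⟩, hx⟩

/-- Every representative can be moved to a later stage. -/
theorem ktop_move (j : ℕ) (z : KG Kind.top m (k + 2 * j) A) : ∀ J, j ≤ J →
    (Quot.mk (BottStep m k A) ⟨j, z⟩ : KTop m k A) =
      Quot.mk (BottStep m k A) ⟨J, (extN (KGF Kind.top m) (bottNat m) (k + 2 * j)
        (k + 2 * J)).app A z⟩ := by
  intro J hJ
  induction J, hJ using Nat.le_induction with
  | base =>
    rw [extN_self]
    rfl
  | succ J hJ ih =>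
    rw [ih]
    refine (Quot.sound ⟨J, _, rfl, rfl⟩).trans ?_
    congr 2
    exact extN_step (KGF Kind.top m) (bottNat m) (by omega) A z

theorem ktMap_injective : Function.Injective (ktMap m k A) := by
  rintro ⟨⟨i, x⟩⟩ ⟨⟨j, y⟩⟩ h
  have h1 := (cls_eq (KGF Kind.top m) (bottNat m) (k % 2) _ _).1 h
  obtain ⟨N, hN⟩ := h1
  have h2 := hN (k + 2 * (N + i + j)) (by omega) (by omega)
  refine (ktop_move i x (N + i + j) (by omega)).trans
    (Eq.trans ?_ (ktop_move j y (N + i + j) (by omega)).symm)
  exact congrArg (fun t => (Quot.mk (BottStep m k A) ⟨N + i + j, t⟩ : KTop m k A)) h2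

theorem ktMap_bijective : Function.Bijective (ktMap m k A) := ⟨ktMap_injective, ktMap_surjective⟩

/-- The comparison map is bijective if and only if the natural transformation is. -/
theorem comparison_bijective_iff :
    Function.Bijective (comparison m k A) ↔ Function.Bijective ((compNat m k).app A) := by
  have h : ((compNat m k).app A : KG Kind.alg m k A → (KTF m k).obj A) =
      ktMap m k A ∘ comparison m k A := funext fun x => (ktMap_comparison x).symm
  constructor
  · intro h1
    exact h ▸ ktMap_bijective.comp h1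
  · intro h1
    have h2 : Function.Bijective (ktMap m k A ∘ comparison m k A) := h ▸ h1
    exact (Function.Bijective.of_comp_iff' ktMap_bijective _).1 h2

/-- **The official statement**, from the properties of the functors `hK m k`. -/
theorem official_of (m : ℕ) [NeZero m] (hm : 2 ≤ m) (hV1 : V1 m) (hV2 : V2 m)
    (hM : ∀ k, MatProp (hK m k)) {A : Type} [Ring A] [Algebra ℂ A]
    (D : ∀ N : ℕ, Odd N → Nonempty (RetractData N A)) (d : ℕ) :
    ∃ k, d ≤ k ∧ ¬ Function.Bijective (comparison m k A) := by
  have hl : ∀ k, Nonempty (NatIso (hK m k) (KGF Kind.alg m k)) := exists_linkIso m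
  obtain ⟨k, hk, h⟩ := general_family m hm D hV1 hV2 hM (KTF m)
    (fun k => colimPer (KGF Kind.top m) (bottNat m) k) (KTF_tr m)
    (fun k => (compNat m k).comp (hl k).some.toNatHom) d
  refine ⟨k, hk, fun h1 => h ?_⟩
  exact ((comparison_bijective_iff).1 h1).comp ((hl k).some.bij A)

/-- The statement for all periodic families of functors with traces. -/
theorem official_general (m : ℕ) [NeZero m] (hm : 2 ≤ m) (hV1 : V1 m) (hV2 : V2 m)
    (hM : ∀ k, MatProp (hK m k)) {A : Type} [Ring A] [Algebra ℂ A]
    (D : ∀ N : ℕ, Odd N → Nonempty (RetractData N A)) (T : ℕ → AlgFunctor)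
    (hT : ∀ k, Nonempty (NatIso (T k) (T (k + 2)))) (htr : ∀ k, HasTrace (T k))
    (c : (k : ℕ) → NatHom (KGF Kind.alg m k) (T k)) (d : ℕ) :
    ∃ k, d ≤ k ∧ ¬ Function.Bijective ((c k).app A) := by
  have hl : ∀ k, Nonempty (NatIso (hK m k) (KGF Kind.alg m k)) := exists_linkIso m
  obtain ⟨k, hk, h⟩ := general_family m hm D hV1 hV2 hM T (fun k => (hT k).some)
    (fun k => (htr k).tr) (fun k => (c k).comp (hl k).some.toNatHom) d
  exact ⟨k, hk, fun h1 => h (h1.comp ((hl k).some.bij A))⟩

end Pool.Agent.Lib.MP_e7fbd4_ag.O
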