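import Pool.Agent.Lib.MP_c052b4_al.KOneCalc
import Pool.Agent.Lib.MP_e7fbd4_ag.O.Basic
import Pool.Agent.Lib.MP_e7fbd4_ag.O.E3
import Pool.Agent.Lib.MP_e7fbd4_ag.O.Ent

/-! # The matrix `P ⊗ M + (1 - P) ⊗ 1` -/

set_option autoImplicit false
set_option linter.unusedSectionVars false
set_option linter.unusedVariables false

namespace Pool.Agent.Lib.MP_e7fbd4_ag.O

open Pool.Agent.Lib.MP_c052b4_al

variable {A B : Type} [Ring A] [Algebra ℂ A] [Ring B] [Algebra ℂ B]

/-- An idempotent complex matrix of size `r`. -/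
structure Idem (r : ℕ) where
  /-- the matrix -/
  mat : Matrix (Fin r) (Fin r) ℂ
  idem : mat * mat = mat

/-- The matrix `P ⊗ M + (1 - P) ⊗ 1`, with rows and columns indexed by `n × {1, …, r}`. -/
def twM {r : ℕ} (P : Idem r) {n : Type} [DecidableEq n] (M : Matrix n n A) :
    Matrix (n × Fin r) (n × Fin r) A :=
  Matrix.of fun x y => P.mat x.2 y.2 • M x.1 y.1 + (1 - P.mat) x.2 y.2 • (1 : Matrix n n A) x.1 y.1

theorem twM_mul {r : ℕ} (P : Idem r) {n : Type} [Fintype n] [DecidableEq n] (M N : Matrix n n A) :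
    twM P (M * N) = twM P M * twM P N := by
  have hPP : ∀ i j, ∑ k, P.mat i k * P.mat k j = P.mat i j := fun i j => by
    rw [← Matrix.mul_apply, P.idem]
  have hPQ : ∀ i j, ∑ k, P.mat i k * (1 - P.mat) k j = 0 := fun i j => by
    rw [← Matrix.mul_apply, mul_sub, mul_one, P.idem, sub_self]
    rfl
  have hQP : ∀ i j, ∑ k, (1 - P.mat) i k * P.mat k j = 0 := fun i j => by
    rw [← Matrix.mul_apply, sub_mul, one_mul, P.idem, sub_self]
    rfl
  have hQQ : ∀ i j, ∑ k, (1 - P.mat) i k * (1 - P.mat) k j = (1 - P.mat) i j := fun i j => by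
    rw [← Matrix.mul_apply, sub_mul, one_mul, mul_sub, mul_one, P.idem, sub_self, sub_zero]
  ext x y
  rw [Matrix.mul_apply, Fintype.sum_prod_type]
  simp only [twM, Matrix.of_apply]
  have key : ∀ z1 : n, ∑ z2 : Fin r,
      (P.mat x.2 z2 • M x.1 z1 + (1 - P.mat) x.2 z2 • (1 : Matrix n n A) x.1 z1) *
        (P.mat z2 y.2 • N z1 y.1 + (1 - P.mat) z2 y.2 • (1 : Matrix n n A) z1 y.1) =
      P.mat x.2 y.2 • (M x.1 z1 * N z1 y.1) +
        (1 - P.mat) x.2 y.2 • ((1 : Matrix n n A) x.1 z1 * (1 : Matrix n n A) z1 y.1) := by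
    intro z1
    have h1 : ∀ z2 : Fin r,
        (P.mat x.2 z2 • M x.1 z1 + (1 - P.mat) x.2 z2 • (1 : Matrix n n A) x.1 z1) *
        (P.mat z2 y.2 • N z1 y.1 + (1 - P.mat) z2 y.2 • (1 : Matrix n n A) z1 y.1) =
        ((P.mat x.2 z2 * P.mat z2 y.2) • (M x.1 z1 * N z1 y.1) +
          (P.mat x.2 z2 * (1 - P.mat) z2 y.2) • (M x.1 z1 * (1 : Matrix n n A) z1 y.1)) +
        (((1 - P.mat) x.2 z2 * P.mat z2 y.2) • ((1 : Matrix n n A) x.1 z1 * N z1 y.1) +
          ((1 - P.mat) x.2 z2 * (1 - P.mat) z2 y.2) •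
            ((1 : Matrix n n A) x.1 z1 * (1 : Matrix n n A) z1 y.1)) := by
      intro z2
      rw [add_mul, mul_add, mul_add, smul_mul_smul_comm, smul_mul_smul_comm, smul_mul_smul_comm,
        smul_mul_smul_comm]
    simp only [h1]
    rw [Finset.sum_add_distrib, Finset.sum_add_distrib, Finset.sum_add_distrib, ← Finset.sum_smul,
      ← Finset.sum_smul, ← Finset.sum_smul, ← Finset.sum_smul, hPP, hPQ, hQP, hQQ, zero_smul,
      zero_smul, add_zero, zero_add]
  simp only [key]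
  rw [Finset.sum_add_distrib, ← Finset.smul_sum, ← Finset.smul_sum, ← Matrix.mul_apply,
    ← Matrix.mul_apply, mul_one]

theorem twM_one {r : ℕ} (P : Idem r) {n : Type} [DecidableEq n] :
    twM P (1 : Matrix n n A) = 1 := by
  ext x y
  simp only [twM, Matrix.of_apply]
  rw [← add_smul, Matrix.sub_apply, add_sub_cancel]
  simp only [Matrix.one_apply, Prod.ext_iff]
  by_cases h1 : x.1 = y.1 <;> by_cases h2 : x.2 = y.2 <;> simp [h1, h2]

/-- `G ↦ P ⊗ G + (1 - P) ⊗ 1` on invertible matrices. -/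
def twU {r : ℕ} (P : Idem r) {n : Type} [Fintype n] [DecidableEq n] :
    (Matrix n n A)ˣ →* (Matrix (n × Fin r) (n × Fin r) A)ˣ where
  toFun G :=
    { val := twM P G.val
      inv := twM P G⁻¹.val
      val_inv := by rw [← twM_mul, Units.mul_inv, twM_one]
      inv_val := by rw [← twM_mul, Units.inv_mul, twM_one] }
  map_one' := Units.ext (twM_one P)
  map_mul' G H := Units.ext (twM_mul P G.val H.val)

end Pool.Agent.Lib.MP_e7fbd4_ag.O
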